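import Mathlib

/-!
# An algebra of matrices with nondegenerate trace form is closed under adjoints in a suitable basis
-/

set_option autoImplicit false

namespace Pool.Agent.E8helper80.TW

open Matrix Module
open scoped ComplexOrder

/-- Nondegenerate trace form implies semisimple. -/
theorem semisimple {n : Type} [Fintype n] [DecidableEq n] (A : Subalgebra ℂ (Matrix n n ℂ))
    (h : ∀ a ∈ A, (∀ b ∈ A, (a * b).trace = 0) → a = 0) : IsSemisimpleRing A := by
  have : FiniteDimensional ℂ A := inferInstance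
  have : IsArtinianRing A := IsArtinianRing.of_finite ℂ A
  rw [IsArtinianRing.isSemisimpleRing_iff_jacobson, eq_bot_iff]
  intro x hx
  have hnil : IsNilpotent (Ring.jacobson A) := IsSemiprimaryRing.isNilpotent
  obtain ⟨k, hk⟩ := hnil
  have hx0 : (x : Matrix n n ℂ) = 0 := by
    apply h _ x.2
    intro b hb
    have hbx : (⟨b, hb⟩ : A) * x ∈ Ring.jacobson A := Ideal.mul_mem_left _ _ hx
    have hpow : ((⟨b, hb⟩ : A) * x) ^ k = 0 := by
      have := Ideal.pow_mem_pow hbx k
      rw [hk] at this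
      simpa using this
    have hN : IsNilpotent (b * (x : Matrix n n ℂ)) := by
      refine ⟨k, ?_⟩
      have := congrArg (Subtype.val) hpow
      simpa using this
    rw [Matrix.trace_mul_comm]
    exact (Matrix.isNilpotent_trace_of_isNilpotent hN).eq_zero
  exact Subtype.ext (by simpa using hx0)

/-- The key: for a homomorphism from a product of matrix algebras there is a positive definite `Q`. -/
theorem exists_form {n : Type} [Fintype n] [DecidableEq n] {r : ℕ} {d : Fin r → ℕ}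
    (hd : ∀ i, NeZero (d i)) (φ : (Π i, Matrix (Fin (d i)) (Fin (d i)) ℂ) →ₐ[ℂ] Matrix n n ℂ) :
    ∃ Q : Matrix n n ℂ, Q.PosDef ∧ ∀ a, (φ a)ᴴ * Q = Q * φ (star a) := by
  classical
  have := hd
  let E : ∀ k : Fin r, Fin (d k) → Fin (d k) → Matrix n n ℂ := fun k i j =>
    φ (Pi.single k (Matrix.single i j 1))
  have hE : ∀ k (i j i' j' : Fin (d k)), E k i j * E k i' j' =
      if j = i' then E k i j' else 0 := by
    intro k i j i' j'
    simp only [E, ← map_mul, ← Pi.single_mul]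
    by_cases hj : j = i'
    · subst hj
      simp
    · rw [if_neg hj]
      simp [Matrix.single_mul_single_of_ne, hj]
  have hE0 : ∀ k l (i j : Fin (d k)) (i' j' : Fin (d l)), k ≠ l → E k i j * E l i' j' = 0 := by
    intro k l i j i' j' h
    simp only [E, ← map_mul]
    have : (Pi.single k (Matrix.single i j (1 : ℂ)) : Π i, Matrix (Fin (d i)) (Fin (d i)) ℂ) *
        Pi.single l (Matrix.single i' j' 1) = 0 := by
      funext m
      by_cases hm : m = k
      · subst hm
        simp [Pi.single_eq_of_ne h]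
      · simp [Pi.single_eq_of_ne hm]
    rw [this, map_zero]
  let f : (Σ k : Fin r, Fin (d k)) → Matrix n n ℂ := fun s => E s.1 0 s.2
  let Q : Matrix n n ℂ := ∑ s, (f s)ᴴ * f s
  have hfE : ∀ (s : Σ k : Fin r, Fin (d k)) l (i j : Fin (d l)), f s * E l i j =
      if s = ⟨l, i⟩ then f ⟨l, j⟩ else 0 := by
    rintro ⟨k, m⟩ l i j
    simp only [f]
    by_cases h : k = l
    · subst h
      rw [hE]
      simp
    · rw [hE0 _ _ _ _ _ _ h, if_neg]
      intro h'
      exact h (congrArg Sigma.fst h')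
  have hQE : ∀ l (i j : Fin (d l)), Q * E l i j = (f ⟨l, i⟩)ᴴ * f ⟨l, j⟩ := by
    intro l i j
    simp only [Q, Finset.sum_mul, Matrix.mul_assoc, hfE]
    rw [Finset.sum_eq_single ⟨l, i⟩]
    · simp
    · intro s _ hs
      simp [hs]
    · simp
  have hQH : Qᴴ = Q := by
    simp [Q, Matrix.conjTranspose_sum, Matrix.conjTranspose_mul]
  have hEQ : ∀ l (i j : Fin (d l)), (E l i j)ᴴ * Q = Q * E l j i := by
    intro l i j
    have : ((E l i j)ᴴ * Q) = (Q * E l i j)ᴴ := by
      rw [Matrix.conjTranspose_mul, hQH]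
    rw [this, hQE, hQE, Matrix.conjTranspose_mul, Matrix.conjTranspose_conjTranspose]
  have hdec : ∀ a : Π i, Matrix (Fin (d i)) (Fin (d i)) ℂ,
      a = ∑ k, ∑ i, ∑ j, (a k i j) • (Pi.single k (Matrix.single i j (1 : ℂ)) :
        Π i, Matrix (Fin (d i)) (Fin (d i)) ℂ) := by
    intro a
    conv_lhs => rw [← Finset.univ_sum_single a]
    refine Finset.sum_congr rfl fun k _ => ?_
    have h := congrArg (LinearMap.single ℂ (fun i => Matrix (Fin (d i)) (Fin (d i)) ℂ) k)
      (Matrix.matrix_eq_sum_single (a k))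
    simp only [map_sum, LinearMap.coe_single] at h
    rw [h]
    refine Finset.sum_congr rfl fun i _ => Finset.sum_congr rfl fun j _ => ?_
    rw [← Pi.single_smul, Matrix.smul_single, smul_eq_mul, mul_one]
  have hmain : ∀ a, (φ a)ᴴ * Q = Q * φ (star a) := by
    intro a
    have h1 : φ a = ∑ k, ∑ i, ∑ j, (a k i j) • E k i j := by
      conv_lhs => rw [hdec a]
      simp only [map_sum, map_smul, E]
    have h2 : φ (star a) = ∑ k, ∑ i, ∑ j, (star (a k j i)) • E k i j := by
      conv_lhs => rw [hdec (star a)]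
      simp only [map_sum, map_smul, E]
      rfl
    rw [h1, h2]
    simp only [Matrix.conjTranspose_sum, Matrix.conjTranspose_smul, Finset.sum_mul, Finset.mul_sum,
      Matrix.smul_mul, Matrix.mul_smul, hEQ]
    refine Finset.sum_congr rfl fun k _ => ?_
    rw [Finset.sum_comm]
  refine ⟨Q, ?_, hmain⟩
  have hpsd : Q.PosSemidef := Matrix.posSemidef_sum _ fun s _ =>
    Matrix.posSemidef_conjTranspose_mul_self _
  refine Matrix.PosDef.of_dotProduct_mulVec_pos hQH fun v hv => ?_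
  have hge : 0 ≤ star v ⬝ᵥ (Q *ᵥ v) := hpsd.dotProduct_mulVec_nonneg v
  refine lt_of_le_of_ne hge ?_
  intro h0
  apply hv
  have hsum : star v ⬝ᵥ (Q *ᵥ v) = ∑ s, star (f s *ᵥ v) ⬝ᵥ (f s *ᵥ v) := by
    simp only [Q, Matrix.sum_mulVec, dotProduct_sum]
    refine Finset.sum_congr rfl fun s _ => ?_
    rw [← Matrix.mulVec_mulVec, Matrix.dotProduct_mulVec, Matrix.star_mulVec]
  rw [hsum] at h0
  have hz : ∀ s, f s *ᵥ v = 0 := by
    intro s
    have := (Finset.sum_eq_zero_iff_of_nonneg (fun s _ => dotProduct_star_self_nonneg _)).1 h0.symm s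
      (Finset.mem_univ _)
    exact dotProduct_star_self_eq_zero.1 this
  have hone : (1 : Matrix n n ℂ) = ∑ s : (Σ k : Fin r, Fin (d k)), E s.1 s.2 0 * f s := by
    have h1 : φ 1 = ∑ k, ∑ i, ∑ j, ((1 : Π i, Matrix (Fin (d i)) (Fin (d i)) ℂ) k i j) • E k i j := by
      conv_lhs => rw [hdec 1]
      simp only [map_sum, map_smul, E]
    rw [map_one] at h1
    rw [h1, Fintype.sum_sigma]
    refine Finset.sum_congr rfl fun k _ => Finset.sum_congr rfl fun i _ => ?_
    rw [Finset.sum_eq_single i]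
    · simp only [f]
      rw [hE]
      simp
    · intro j _ hj
      simp [Matrix.one_apply_ne (Ne.symm hj)]
    · simp
  calc v = (1 : Matrix n n ℂ) *ᵥ v := by simp
    _ = ∑ s : (Σ k : Fin r, Fin (d k)), E s.1 s.2 0 *ᵥ (f s *ᵥ v) := by
      rw [hone, Matrix.sum_mulVec]
      simp only [Matrix.mulVec_mulVec]
    _ = 0 := by simp [hz]

/-- **Piece MET**, core. -/
theorem met {n : Type} [Fintype n] [DecidableEq n] (A : Subalgebra ℂ (Matrix n n ℂ))
    (h : ∀ a ∈ A, (∀ b ∈ A, (a * b).trace = 0) → a = 0) :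
    ∃ P : Matrix n n ℂ, IsUnit P.det ∧ ∀ a ∈ A, P * (P⁻¹ * a * P)ᴴ * P⁻¹ ∈ A := by
  classical
  have hss := semisimple A h
  obtain ⟨r, d, hd, ⟨e⟩⟩ := IsSemisimpleRing.exists_algEquiv_pi_matrix_of_isAlgClosed ℂ A
  obtain ⟨Q, hQ, hQa⟩ := exists_form hd (A.val.comp e.symm.toAlgHom)
  obtain ⟨B, hB⟩ : ∃ B : Matrix n n ℂ, Q = Bᴴ * B := by
    open scoped MatrixOrder Matrix.Norms.L2Operator in
    exact CStarAlgebra.nonneg_iff_eq_star_mul_self.mp hQ.posSemidef.nonneg
  have hQu : IsUnit Q.det := (Matrix.isUnit_iff_isUnit_det Q).1 hQ.isUnit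
  have hBu : IsUnit B.det := by
    rw [hB, Matrix.det_mul] at hQu
    exact isUnit_of_mul_isUnit_right hQu
  have hBHu : IsUnit (Bᴴ).det := by
    rw [hB, Matrix.det_mul] at hQu
    exact isUnit_of_mul_isUnit_left hQu
  refine ⟨B⁻¹, Matrix.isUnit_nonsing_inv_det B hBu, fun a ha => ?_⟩
  have hinv : (B⁻¹)⁻¹ = B := Matrix.nonsing_inv_nonsing_inv B hBu
  rw [hinv]
  set x := e ⟨a, ha⟩ with hx
  have hax : a = (A.val.comp e.symm.toAlgHom) x := by simp [hx]
  have h1 : aᴴ * Q = Q * (A.val.comp e.symm.toAlgHom) (star x) := by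
    rw [hax]; exact hQa x
  have h2 : B⁻¹ * (B * a * B⁻¹)ᴴ * B = (A.val.comp e.symm.toAlgHom) (star x) := by
    have e1 : B⁻¹ * (B * a * B⁻¹)ᴴ * B = B⁻¹ * (Bᴴ)⁻¹ * (aᴴ * Q) := by
      rw [Matrix.conjTranspose_mul, Matrix.conjTranspose_mul, Matrix.conjTranspose_nonsing_inv, hB]
      simp only [Matrix.mul_assoc]
    rw [e1, h1, hB]
    calc B⁻¹ * (Bᴴ)⁻¹ * (Bᴴ * B * (A.val.comp e.symm.toAlgHom) (star x))
        = B⁻¹ * ((Bᴴ)⁻¹ * Bᴴ) * (B * (A.val.comp e.symm.toAlgHom) (star x)) := by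
          simp only [Matrix.mul_assoc]
      _ = (B⁻¹ * B) * (A.val.comp e.symm.toAlgHom) (star x) := by
          rw [Matrix.nonsing_inv_mul _ hBHu, Matrix.mul_one]
          simp only [Matrix.mul_assoc]
      _ = _ := by rw [Matrix.nonsing_inv_mul _ hBu, Matrix.one_mul]
  rw [h2]
  exact (e.symm (star x)).2

end Pool.Agent.E8helper80.TW
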