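import Pool.Agent.E8helper1.TW.Stm
import Pool.Agent.E8helper80.TW.Met0

set_option autoImplicit false

namespace Pool.Agent.E8helper80.TW

theorem t_MET : Pool.Agent.E8helper1.TW.S_MET := fun _ _ _ A h => met A h

end Pool.Agent.E8helper80.TW
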